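import Pool.Agent.W734.STS.Stms

/-!
Project STS (helper734), MP_084e97_mp: the cluster lemma.
-/

set_option autoImplicit false

namespace Pool.Agent.W790.STS

open Pool.Agent.W734.STS

/-! ### potentials -/

/-- `1` if the list starts with `A A X`, `X` active -/
def dc : List Blk → ℤ
  | Blk.A :: Blk.A :: Blk.A :: _ => 1
  | Blk.A :: Blk.A :: Blk.B :: _ => 1
  | _ => 0

/-- potential after an unconsumed `B` (number of clusters) -/
def du : List Blk → ℤ
  | Blk.A :: Blk.A :: _ => 0
  | Blk.A :: Blk.B :: _ => 0
  | _ => -1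

/-- potential after a `B` (number of inactive blocks) -/
def cB : List Blk → ℤ
  | Blk.A :: Blk.A :: Blk.A :: _ => 1
  | Blk.A :: Blk.A :: Blk.B :: _ => 1
  | Blk.A :: Blk.A :: _ => 0
  | Blk.A :: Blk.B :: _ => 0
  | Blk.A :: _ => -1
  | _ => -2

theorem Q_A (t : List Blk) : (Q (Blk.A :: t) : ℤ) = dc t + Q t := by
  rcases t with _ | ⟨(_ | _ | k | _), _ | ⟨(_ | _ | k | _), _ | ⟨(_ | _ | k | _), t⟩⟩⟩ <;>
    simp [Q, dc]

theorem Q_ne {x : Blk} (hx : x ≠ Blk.A) (t : List Blk) : Q (x :: t) = Q t := by
  simp [Q, hx]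

theorem dc_nonneg (t : List Blk) : 0 ≤ dc t := by
  rcases t with _ | ⟨(_ | _ | k | _), _ | ⟨(_ | _ | k | _), _ | ⟨(_ | _ | k | _), t⟩⟩⟩ <;>
    simp [dc]

theorem du_le (t : List Blk) : du t ≤ 0 := by
  rcases t with _ | ⟨(_ | _ | k | _), _ | ⟨(_ | _ | k | _), _ | ⟨(_ | _ | k | _), t⟩⟩⟩ <;>
    simp [du]

theorem du_AB (t : List Blk) : du (Blk.A :: Blk.B :: t) = 0 := rfl

theorem dc_AB (t : List Blk) : dc (Blk.A :: Blk.B :: t) = 0 := rfl

theorem cB_AB (t : List Blk) : cB (Blk.A :: Blk.B :: t) = 0 := rfl

theorem dc_ne {x : Blk} (hx : x ≠ Blk.A) (t : List Blk) : dc (x :: t) = 0 := by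
  rcases x with _ | _ | k | _ <;> simp_all [dc]

theorem du_ne {x : Blk} (hx : x ≠ Blk.A) (t : List Blk) : du (x :: t) = -1 := by
  rcases x with _ | _ | k | _ <;> simp_all [du]

theorem cB_ne {x : Blk} (hx : x ≠ Blk.A) (t : List Blk) : cB (x :: t) = -2 := by
  rcases x with _ | _ | k | _ <;> simp_all [cB]

theorem cB_le (t : List Blk) : cB t ≤ dc t := by
  rcases t with _ | ⟨(_ | _ | k | _), _ | ⟨(_ | _ | k | _), _ | ⟨(_ | _ | k | _), t⟩⟩⟩ <;>
    simp [dc, cB]

theorem cB_A {t : List Blk} (ht : t.head? ≠ some Blk.B) :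
    1 + cB t ≤ cB (Blk.A :: t) + dc t := by
  rcases t with _ | ⟨(_ | _ | k | _), _ | ⟨(_ | _ | k | _), _ | ⟨(_ | _ | k | _), t⟩⟩⟩ <;>
    simp_all [dc, cB]

theorem du_A {t : List Blk} (ht : t.head? ≠ some Blk.B) :
    du t ≤ du (Blk.A :: t) + dc t := by
  rcases t with _ | ⟨(_ | _ | k | _), _ | ⟨(_ | _ | k | _), _ | ⟨(_ | _ | k | _), t⟩⟩⟩ <;>
    simp_all [dc, du]

theorem dc_A {t : List Blk} (ht : t.head? ≠ some Blk.B) :
    1 + du t ≤ dc (Blk.A :: t) + dc t := by
  rcases t with _ | ⟨(_ | _ | k | _), _ | ⟨(_ | _ | k | _), _ | ⟨(_ | _ | k | _), t⟩⟩⟩ <;>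
    simp_all [dc, du]

/-! ### the step -/

theorem step_A (j : ℕ) {t : List Blk} (ht : t.head? ≠ some Blk.B) :
    step j (Blk.A :: t) = Blk.B :: step j t := by
  rcases t with _ | ⟨(_ | _ | k | _), t⟩ <;> simp_all [step]

theorem step_AB (j : ℕ) (t : List Blk) :
    step j (Blk.A :: Blk.B :: t) = Blk.A :: step j t := by simp [step]

theorem step_B (j : ℕ) (t : List Blk) : step j (Blk.B :: t) = Blk.I j :: step j t := by
  simp [step]

theorem step_I (j k : ℕ) (t : List Blk) : step j (Blk.I k :: t) = Blk.I k :: step j t := by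
  simp [step]

theorem step_E (j : ℕ) (t : List Blk) : step j (Blk.E :: t) = Blk.E :: step j t := by
  simp [step]

theorem nI_cons (x : Blk) (t : List Blk) :
    nI (x :: t) = nI t + (if isI x = true then 1 else 0) := by
  simp [nI, List.countP_cons]

theorem clu_cons (p : Bool) (x : Blk) (t : List Blk) :
    clu p (x :: t) = (if (inact x && !p) = true then 1 else 0) + clu (inact x) t := by
  simp [clu]

/-- the inequalities for all states -/
structure Inv (j : ℕ) (t : List Blk) : Prop where
  nI_i : (nI (step (j + 1) (step j t)) : ℤ) ≤ nI (step j t) + 3 * clu true (step j t) + Q t + 1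
  nI_a : (nI (step (j + 1) (Blk.A :: step j t)) : ℤ) ≤
    nI (step j t) + 3 * clu false (step j t) + Q t
  nI_b : (nI (step (j + 1) (step j t)) : ℤ) ≤
    nI (step j t) + 3 * clu false (step j t) + Q t + cB t
  k_i : (clu true (step (j + 1) (step j t)) : ℤ) ≤ clu true (step j t) + Q t
  k_a : ∀ p : Bool, (clu p (step (j + 1) (Blk.A :: step j t)) : ℤ) ≤
    clu false (step j t) + Q t
  k_c : (clu false (step (j + 1) (step j t)) : ℤ) ≤ clu false (step j t) + Q t + dc t
  k_u : (clu true (step (j + 1) (step j t)) : ℤ) ≤ clu false (step j t) + Q t + du t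

/-- an inactive block in front -/
theorem inv_inact (j : ℕ) (x y : Blk) (t : List Blk) (hxA : x ≠ Blk.A)
    (hx : step j (x :: t) = y :: step j t) (hyi : inact y = true)
    (hy : step (j + 1) (y :: step j t) = y :: step (j + 1) (step j t)) (ht : Inv j t) :
    Inv j (x :: t) := by
  have h1 : step (j + 1) (Blk.A :: step j (x :: t)) = Blk.B :: y :: step (j + 1) (step j t) := by
    rw [hx, step_A, hy]
    rcases y with _ | _ | k | _ <;> simp_all [inact]
  have h2 : step (j + 1) (step j (x :: t)) = y :: step (j + 1) (step j t) := by rw [hx, hy]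
  have a1 := ht.nI_i
  have a2 := ht.k_i
  have hB : isI Blk.B = false := rfl
  have hB' : inact Blk.B = false := rfl
  constructor
  · rw [h2, hx, Q_ne hxA, nI_cons, nI_cons, clu_cons, hyi]
    simp only [Bool.not_true, Bool.and_false, Bool.false_eq_true, if_false, zero_add]
    push_cast; linarith
  · rw [h1, hx, Q_ne hxA, nI_cons, nI_cons, nI_cons, clu_cons, hyi, hB]
    simp only [Bool.not_false, Bool.and_true, Bool.false_eq_true, if_false, if_true, add_zero]
    push_cast; linarith
  · rw [h2, hx, Q_ne hxA, nI_cons, nI_cons, clu_cons, hyi, cB_ne hxA]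
    simp only [Bool.not_false, Bool.and_true, if_true]
    push_cast; linarith
  · rw [h2, hx, Q_ne hxA, clu_cons, clu_cons, hyi]
    simp only [Bool.not_true, Bool.and_false, Bool.false_eq_true, if_false, zero_add]
    exact a2
  · intro p
    rw [h1, hx, Q_ne hxA, clu_cons, clu_cons, clu_cons, hyi, hB']
    simp only [Bool.not_false, Bool.and_true, Bool.false_and, Bool.false_eq_true, if_false,
      if_true, zero_add]
    push_cast; linarith
  · rw [h2, hx, Q_ne hxA, clu_cons, clu_cons, hyi, dc_ne hxA]
    simp only [Bool.not_false, Bool.and_true, if_true]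
    push_cast; linarith
  · rw [h2, hx, Q_ne hxA, clu_cons, clu_cons, hyi, du_ne hxA]
    simp only [Bool.not_false, Bool.not_true, Bool.and_false, Bool.and_true, Bool.false_eq_true,
      if_false, if_true, zero_add]
    push_cast; linarith

/-- `A B` in front -/
theorem inv_AB (j : ℕ) (t : List Blk) (ht : Inv j t) : Inv j (Blk.A :: Blk.B :: t) := by
  have hQ : Q (Blk.A :: Blk.B :: t) = Q t := by
    have h := Q_A (Blk.B :: t)
    rw [dc_ne (x := Blk.B) (by decide), Q_ne (x := Blk.B) (by decide)] at h
    exact_mod_cast h.trans (zero_add _)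
  have h1 : step j (Blk.A :: Blk.B :: t) = Blk.A :: step j t := step_AB j t
  have h2 : step (j + 1) (Blk.A :: Blk.A :: step j t) =
      Blk.B :: step (j + 1) (Blk.A :: step j t) := step_A _ (by simp)
  have hA : isI Blk.A = false := rfl
  have hA' : inact Blk.A = false := rfl
  have hB : isI Blk.B = false := rfl
  have hB' : inact Blk.B = false := rfl
  have a1 := ht.nI_a
  have a2 := ht.k_a
  constructor
  · rw [h1, hQ, nI_cons, clu_cons, hA, hA']
    simp only [Bool.false_and, Bool.false_eq_true, if_false, add_zero, zero_add]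
    linarith
  · rw [h1, hQ, h2, nI_cons, nI_cons, clu_cons, hA, hA', hB]
    simp only [Bool.false_and, Bool.false_eq_true, if_false, add_zero, zero_add]
    linarith
  · rw [h1, hQ, nI_cons, clu_cons, hA, hA', cB_AB]
    simp only [Bool.false_and, Bool.false_eq_true, if_false, add_zero, zero_add]
    linarith
  · rw [h1, hQ, clu_cons true Blk.A, hA']
    simp only [Bool.false_and, Bool.false_eq_true, if_false, zero_add]
    exact a2 true
  · intro p
    rw [h1, hQ, h2, clu_cons p, clu_cons, hA', hB']
    simp only [Bool.false_and, Bool.false_eq_true, if_false, zero_add]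
    exact a2 false
  · rw [h1, hQ, clu_cons false Blk.A, hA', dc_AB, add_zero]
    simp only [Bool.false_and, Bool.false_eq_true, if_false, zero_add]
    exact a2 false
  · rw [h1, hQ, clu_cons false Blk.A, hA', du_AB, add_zero]
    simp only [Bool.false_and, Bool.false_eq_true, if_false, zero_add]
    exact a2 true

/-- `A` in front, not followed by `B` -/
theorem inv_A (j : ℕ) (t : List Blk) (hB : t.head? ≠ some Blk.B) (ht : Inv j t) :
    Inv j (Blk.A :: t) := by
  have h1 : step j (Blk.A :: t) = Blk.B :: step j t := step_A j hB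
  have h2 : step (j + 1) (Blk.B :: step j t) = Blk.I (j + 1) :: step (j + 1) (step j t) :=
    step_B _ _
  have h3 : step (j + 1) (Blk.A :: Blk.B :: step j t) =
      Blk.A :: step (j + 1) (step j t) := step_AB _ _
  have hQ := Q_A t
  have hA : isI Blk.A = false := rfl
  have hA' : inact Blk.A = false := rfl
  have hB1 : isI Blk.B = false := rfl
  have hB' : inact Blk.B = false := rfl
  have hI : isI (Blk.I (j + 1)) = true := rfl
  have hI' : inact (Blk.I (j + 1)) = true := rfl
  have c1 := cB_le t
  have c2 := cB_A hB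
  have c3 := du_A hB
  have c4 := dc_A hB
  have c5 := dc_nonneg t
  have c6 := du_le t
  constructor
  · rw [h1, h2, hQ, nI_cons, nI_cons, clu_cons, hI, hB1, hB']
    simp only [Bool.false_and, Bool.false_eq_true, if_false, if_true, add_zero, zero_add]
    have := ht.nI_b
    push_cast; linarith
  · rw [h1, h3, hQ, nI_cons, nI_cons, clu_cons, hA, hB1, hB']
    simp only [Bool.false_and, Bool.false_eq_true, if_false, add_zero, zero_add]
    have := ht.nI_b
    linarith
  · rw [h1, h2, hQ, nI_cons, nI_cons, clu_cons, hI, hB1, hB']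
    simp only [Bool.false_and, Bool.false_eq_true, if_false, if_true, add_zero, zero_add]
    have := ht.nI_b
    push_cast; linarith
  · rw [h1, h2, hQ, clu_cons, clu_cons, hI', hB']
    simp only [Bool.false_and, Bool.not_true, Bool.and_false, Bool.false_eq_true, if_false,
      zero_add]
    have := ht.k_u
    linarith
  · intro p
    rw [h1, h3, hQ, clu_cons, clu_cons, hA', hB']
    simp only [Bool.false_and, Bool.false_eq_true, if_false, zero_add]
    have := ht.k_c
    linarith
  · rw [h1, h2, hQ, clu_cons, clu_cons, hI', hB']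
    simp only [Bool.false_and, Bool.not_false, Bool.and_true, Bool.false_eq_true, if_false,
      if_true, zero_add]
    have := ht.k_u
    push_cast; linarith
  · rw [h1, h2, hQ, clu_cons, clu_cons, hI', hB']
    simp only [Bool.false_and, Bool.not_true, Bool.and_false, Bool.false_eq_true, if_false,
      zero_add]
    have := ht.k_u
    linarith

theorem inv_nil (j : ℕ) : Inv j [Blk.E] := by
  constructor <;> simp [step, nI, clu, Q, inact, isI, cB, dc, du]

theorem inv_all (j : ℕ) : ∀ (n : ℕ) (M : List Blk), M.length ≤ n → Inv j (M ++ [Blk.E]) := by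
  intro n
  induction n with
  | zero =>
    intro M hM
    have : M = [] := List.length_eq_zero_iff.1 (by omega)
    subst this
    exact inv_nil j
  | succ n ih =>
    intro M hM
    rcases M with _ | ⟨(_ | _ | k | _), M⟩
    · exact inv_nil j
    · have h := ih M (by simp at hM; omega)
      rcases M with _ | ⟨(_ | _ | k | _), M⟩
      · exact inv_A j _ (by simp) h
      · exact inv_A j _ (by simp) h
      · exact inv_AB j _ (ih M (by simp at hM; omega))
      · exact inv_A j _ (by simp) h
      · exact inv_A j _ (by simp) h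
    · exact inv_inact j Blk.B (Blk.I j) _ (by decide) (step_B _ _) rfl (step_I _ _ _)
        (ih M (by simp at hM; omega))
    · exact inv_inact j (Blk.I k) (Blk.I k) _ (by simp) (step_I _ _ _) rfl (step_I _ _ _)
        (ih M (by simp at hM; omega))
    · exact inv_inact j Blk.E Blk.E _ (by decide) (step_E _ _) rfl (step_E _ _)
        (ih M (by simp at hM; omega))

/-! ### level `0` -/

theorem V_one_cons (x : Fin 2) (u : List (Fin 2)) :
    V 1 (x :: u) = V 1 u + (if x = 0 ∧ u.head? = some 0 then 1 else 0) := by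
  unfold V
  rw [Finset.card_filter, Finset.card_filter, List.length_cons, Finset.sum_range_succ']
  congr 1
  rcases u with _ | ⟨y, u⟩ <;> simp

/-- the letters as blocks, with the end marker -/
def gg (u : List (Fin 2)) : List Blk := u.map (fun x => if x = 1 then Blk.A else Blk.B) ++ [Blk.E]

/-- `1` if `u` starts with `0` -/
def hz (u : List (Fin 2)) : ℕ := if u.head? = some 0 then 1 else 0

/-- level zero -/
structure Inv0 (u : List (Fin 2)) : Prop where
  n : nI (step 0 (gg u)) ≤ V 1 u + hz u
  kt : clu true (step 0 (gg u)) ≤ 1 + V 1 u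
  kf : clu false (step 0 (gg u)) ≤ 1 + V 1 u + hz u

theorem inv0_nil : Inv0 [] := by
  constructor <;> simp [gg, step, nI, clu, inact, isI, hz]

theorem inv0_zero (u : List (Fin 2)) (h : Inv0 u) : Inv0 (0 :: u) := by
  have h1 : step 0 (gg (0 :: u)) = Blk.I 0 :: step 0 (gg u) := by
    simp [gg, step]
  have h2 : V 1 (0 :: u) = V 1 u + hz u := by
    rw [V_one_cons]; simp [hz]
  have h3 : hz (0 :: u) = 1 := by simp [hz]
  have a1 := h.n
  have a2 := h.kt
  constructor
  · rw [h1, h2, h3, nI_cons]
    have : (if isI (Blk.I 0) = true then 1 else 0) = 1 := rfl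
    omega
  · rw [h1, h2, clu_cons]
    have : (if (inact (Blk.I 0) && !true) = true then 1 else 0) = 0 := rfl
    have h4 : inact (Blk.I 0) = true := rfl
    rw [this, h4]
    omega
  · rw [h1, h2, h3, clu_cons]
    have : (if (inact (Blk.I 0) && !false) = true then 1 else 0) = 1 := rfl
    have h4 : inact (Blk.I 0) = true := rfl
    rw [this, h4]
    omega

theorem inv0_one (u : List (Fin 2)) (hu : u.head? ≠ some 0) (h : Inv0 u) : Inv0 (1 :: u) := by
  have h1 : step 0 (gg (1 :: u)) = Blk.B :: step 0 (gg u) := by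
    have : gg (1 :: u) = Blk.A :: gg u := by simp [gg]
    rw [this]
    apply step_A
    rcases u with _ | ⟨y, u⟩
    · simp [gg]
    · fin_cases y
      · exact absurd rfl hu
      · simp [gg]
  have h2 : V 1 (1 :: u) = V 1 u := by
    rw [V_one_cons]; simp
  have h3 : hz u = 0 := by simp [hz, hu]
  have a1 := h.n
  have a2 := h.kf
  have hB' : inact Blk.B = false := rfl
  constructor
  · rw [h1, h2, nI_cons]
    have : (if isI Blk.B = true then 1 else 0) = 0 := rfl
    omega
  · rw [h1, h2, clu_cons, hB']
    simp only [Bool.false_and, Bool.false_eq_true, if_false]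
    omega
  · rw [h1, h2, clu_cons, hB']
    simp only [Bool.false_and, Bool.false_eq_true, if_false]
    omega

theorem inv0_onezero (u : List (Fin 2)) (h : Inv0 u) : Inv0 (1 :: 0 :: u) := by
  have h1 : step 0 (gg (1 :: 0 :: u)) = Blk.A :: step 0 (gg u) := by
    simp [gg, step]
  have h2 : V 1 (1 :: 0 :: u) = V 1 u + hz u := by
    rw [V_one_cons, V_one_cons]; simp [hz]
  have a1 := h.n
  have a2 := h.kf
  have hB' : inact Blk.A = false := rfl
  constructor
  · rw [h1, h2, nI_cons]
    have : (if isI Blk.A = true then 1 else 0) = 0 := rfl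
    omega
  · rw [h1, h2, clu_cons, hB']
    simp only [Bool.false_and, Bool.false_eq_true, if_false]
    omega
  · rw [h1, h2, clu_cons, hB']
    simp only [Bool.false_and, Bool.false_eq_true, if_false]
    omega

theorem inv0_all : ∀ (n : ℕ) (u : List (Fin 2)), u.length ≤ n → Inv0 u := by
  intro n
  induction n with
  | zero =>
    intro u hu
    have : u = [] := List.length_eq_zero_iff.1 (by omega)
    subst this
    exact inv0_nil
  | succ n ih =>
    intro u hu
    rcases u with _ | ⟨x, u⟩
    · exact inv0_nil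
    · have h := ih u (by simp at hu; omega)
      fin_cases x
      · exact inv0_zero u h
      · rcases u with _ | ⟨y, u⟩
        · exact inv0_one [] (by simp) h
        · fin_cases y
          · exact inv0_onezero u (ih u (by simp at hu; omega))
          · exact inv0_one _ (by simp) h

/-- no `I` at level `0` -/
theorem nI_gg (u : List (Fin 2)) : nI (gg u) = 0 := by
  unfold nI
  rw [List.countP_eq_zero]
  intro x hx
  simp only [gg, List.mem_append, List.mem_map, List.mem_singleton] at hx
  rcases hx with ⟨y, -, rfl⟩ | rfl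
  · split_ifs <;> simp [isI]
  · simp [isI]

theorem clu_gg (u : List (Fin 2)) : ∀ p : Bool, clu p (gg u) ≤ 1 := by
  induction u with
  | nil => intro p; cases p <;> simp [gg, clu, inact]
  | cons x u ih =>
    intro p
    have h1 : gg (x :: u) = (if x = 1 then Blk.A else Blk.B) :: gg u := by simp [gg]
    have h2 : inact (if x = 1 then Blk.A else Blk.B) = false := by split_ifs <;> rfl
    rw [h1, clu_cons, h2]
    simp only [Bool.false_and, Bool.false_eq_true, if_false, zero_add]
    exact ih false

theorem clup : S_CLU := by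
  refine ⟨fun j M => ?_, fun u => ?_⟩
  · have h := inv_all j M.length M le_rfl
    have a1 := h.nI_i
    have a2 := h.k_i
    have hE : isI Blk.E = false := rfl
    have hE' : inact Blk.E = true := rfl
    have hQ : Q (Blk.E :: (M ++ [Blk.E])) = Q (M ++ [Blk.E]) := Q_ne (by decide) _
    rw [step_E, step_E, hQ]
    unfold K
    rw [nI_cons, nI_cons, clu_cons, clu_cons, hE, hE']
    simp only [Bool.not_false, Bool.and_true, Bool.false_eq_true, if_false, if_true, add_zero]
    constructor
    · zify; linarith
    · zify; linarith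
  · have h := inv0_all u.length u le_rfl
    have hi : ini u = Blk.E :: gg u := rfl
    have hE : isI Blk.E = false := rfl
    have hE' : inact Blk.E = true := rfl
    have a1 := h.n
    have a2 := h.kt
    have a3 := nI_gg u
    have a4 := clu_gg u true
    have a5 : hz u ≤ 1 := by unfold hz; split_ifs <;> omega
    rw [hi, step_E]
    unfold K
    rw [nI_cons, nI_cons, clu_cons, clu_cons, hE, hE']
    simp only [Bool.not_false, Bool.and_true, Bool.false_eq_true, if_false, if_true, add_zero]
    refine ⟨a3, by omega, by omega, by omega⟩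

end Pool.Agent.W790.STS
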